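import Pool.Agent.helper66.PX.Spec

set_option autoImplicit false

namespace Pool.Agent.PX

universe w

/-- the auxiliary matrices `y`. -/
theorem CB_step {L : Type w} [Field L] {n : ℕ} (r a a' b b' c : Fin n) (h : ¬ (a' = a ∧ b' = b)) :
    Matrix.single r a (1 : L) * Matrix.single a' b' (1 : L) * Matrix.single b c (1 : L) = 0 := by
  by_cases h1 : a = a'
  · by_cases h2 : b' = b
    · exact absurd ⟨h1.symm, h2⟩ h
    · rw [mul_assoc, Matrix.single_mul_single_of_ne (1 : L) a' b' b h2, mul_zero]
  · rw [Matrix.single_mul_single_of_ne (1 : L) r a a' h1, zero_mul]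

theorem CB_good {L : Type w} [Field L] {n : ℕ} (I J : ℕ → Fin n) (y : ℕ → Matrix (Fin n) (Fin n) L)
    (hy0 : y 0 = Matrix.single (I 0) (I 0) 1) (hy : ∀ k, y (k + 1) = Matrix.single (J k) (I (k + 1)) 1) :
    ∀ (m : ℕ), (List.ofFn fun k : Fin m => y k * Matrix.single (I k) (J k) (1 : L)).prod * y m
      = Matrix.single (I 0) (I m) 1 := by
  intro m
  induction m with
  | zero => simp [hy0]
  | succ m ih =>
    rw [List.ofFn_succ', List.prod_concat]
    simp only [Fin.val_castSucc, Fin.val_last]
    rw [← mul_assoc, ih, hy m, Matrix.single_mul_single_same, Matrix.single_mul_single_same]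
    simp

theorem CB_bad {L : Type w} [Field L] {n : ℕ} (I J : ℕ → Fin n) (y : ℕ → Matrix (Fin n) (Fin n) L)
    (hy0 : y 0 = Matrix.single (I 0) (I 0) 1) (hy : ∀ k, y (k + 1) = Matrix.single (J k) (I (k + 1)) 1) :
    ∀ (m : ℕ) (g : Fin m → ℕ), (∃ k : Fin m, ¬ (I (g k) = I k ∧ J (g k) = J k)) →
      (List.ofFn fun k : Fin m => y k * Matrix.single (I (g k)) (J (g k)) (1 : L)).prod * y m = 0 := by
  intro m
  induction m with
  | zero => rintro g ⟨k, -⟩; exact k.elim0
  | succ m ih =>
    intro g hg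
    rw [List.ofFn_succ', List.prod_concat]
    simp only [Fin.val_castSucc, Fin.val_last]
    by_cases hl : ¬ (I (g (Fin.last m)) = I m ∧ J (g (Fin.last m)) = J m)
    · have hz : y m * Matrix.single (I (g (Fin.last m))) (J (g (Fin.last m))) (1 : L) * y (m + 1) = 0 := by
        rw [hy m]
        obtain _ | m' := m
        · rw [hy0]; exact CB_step _ _ _ _ _ _ hl
        · rw [hy m']; exact CB_step _ _ _ _ _ _ hl
      rw [mul_assoc, hz, mul_zero]
    · obtain ⟨k, hk⟩ := hg
      have hk' : k ≠ Fin.last m := by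
        rintro rfl
        exact hl (by simpa using hk)
      obtain ⟨k', rfl⟩ : ∃ k' : Fin m, k = k'.castSucc := by
        refine ⟨⟨k.val, ?_⟩, ?_⟩
        · have := k.isLt
          have h2 : k.val ≠ m := fun h => hk' (Fin.ext h)
          omega
        · rfl
      have := ih (fun i => g i.castSucc) ⟨k', by simpa using hk⟩
      rw [← mul_assoc, this, zero_mul, zero_mul]

theorem CB : CB_stmt.{w} := by
  intro L _ n hn
  classical
  have hpos : 0 < n := hn
  let e : Fin (n * n) → Fin n × Fin n := fun k => finProdFinEquiv.symm k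
  let I : ℕ → Fin n := fun k => if h : k < n * n then (e ⟨k, h⟩).1 else ⟨0, hpos⟩
  let J : ℕ → Fin n := fun k => if h : k < n * n then (e ⟨k, h⟩).2 else ⟨0, hpos⟩
  let y : ℕ → Matrix (Fin n) (Fin n) L := fun k => Nat.casesOn k (Matrix.single (I 0) (I 0) 1)
    (fun k => Matrix.single (J k) (I (k + 1)) 1)
  have hy0 : y 0 = Matrix.single (I 0) (I 0) 1 := rfl
  have hy : ∀ k, y (k + 1) = Matrix.single (J k) (I (k + 1)) 1 := fun k => rfl
  have hinj : ∀ k l : Fin (n * n), I l = I k → J l = J k → l = k := by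
    intro k l h1 h2
    have e1 : I l = (e l).1 := by simp only [I, l.isLt, dif_pos]
    have e2 : J l = (e l).2 := by simp only [J, l.isLt, dif_pos]
    have e3 : I k = (e k).1 := by simp only [I, k.isLt, dif_pos]
    have e4 : J k = (e k).2 := by simp only [J, k.isLt, dif_pos]
    rw [e1, e3] at h1
    rw [e2, e4] at h2
    exact finProdFinEquiv.symm.injective (Prod.ext h1 h2)
  refine ⟨fun k => Matrix.single (I k) (J k) 1, y, ?_⟩
  unfold Cap
  rw [Finset.sum_eq_single (1 : Equiv.Perm (Fin (n * n)))]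
  · have hg := CB_good I J y hy0 hy (n * n)
    simp only [Equiv.Perm.sign_one, Equiv.Perm.coe_one, id_eq, Units.val_one, one_smul]
    rw [hg]
    intro h
    have := congrFun (congrFun h (I 0)) (I (n * n))
    simp at this
  · intro σ _ hσ
    have : ∃ k : Fin (n * n), σ k ≠ k := by
      by_contra hcon
      push Not at hcon
      exact hσ (Equiv.ext hcon)
    obtain ⟨k, hk⟩ := this
    have hb := CB_bad I J y hy0 hy (n * n) (fun k => (σ k : Fin (n * n)).val)
      ⟨k, fun h => hk (hinj k (σ k) h.1 h.2)⟩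
    rw [hb, smul_zero]
  · intro h
    exact absurd (Finset.mem_univ _) h

end Pool.Agent.PX
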